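import Pool.Agent.Y53.FP.Final

/-!
MP_f25c59_an, Q1. Lipschitz free `p`-spaces, `0 < p ≤ 1`, without the approximation property over
metric Cantor spaces.

Every real Banach space `X` without the approximation property contains a compact set `C`,
homeomorphic to the Cantor space, such that for all `0 < p ≤ 1` the Lipschitz free `p`-space over
`N` fails the approximation property, for every metric space `N` through which the inclusion of
`C` in `X` factors by Lipschitz maps (for example all `N` with `C ⊆ N ⊆ X`), and also for every
subset `N` of `X` with non-empty interior.  In particular there is a metric space homeomorphic to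
the Cantor space with this property for all `0 < p ≤ 1` at once.
-/

set_option autoImplicit false

open Pool.Agent.H548R3.PFree Pool.Agent.Y53.FP

namespace Pool.Agent.Results.MP_f25c59_an.CantorFreePNoAP

/-- **MP_f25c59_an, Q1.** -/
theorem result :
    (∀ (X : Type) [NormedAddCommGroup X] [NormedSpace ℝ X] [CompleteSpace X], ¬ HasAP 1 X →
      (∃ C : Set X, IsCompact C ∧ Nonempty (C ≃ₜ (ℕ → Bool)) ∧
        ∀ (N : Type) [MetricSpace N] (o : N) (j : C → N) (π : N → X),
          (∃ L, LipschitzWith L j) → (∃ L, LipschitzWith L π) → (∀ s : C, π (j s) = s) →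
          ∀ p : ℝ, 0 < p → p ≤ 1 → FreeFailsAP p N o) ∧
      ∀ N : Set X, (interior N).Nonempty → ∀ (o : N) (p : ℝ), 0 < p → p ≤ 1 →
        FreeFailsAP p N o) ∧
    ∃ (M : Type) (_ : MetricSpace M), Nonempty (M ≃ₜ (ℕ → Bool)) ∧
      ∀ (o : M) (p : ℝ), 0 < p → p ≤ 1 → FreeFailsAP p M o :=
  ⟨fun X _ _ _ hX => main_X X hX, exists_cantor⟩

end Pool.Agent.Results.MP_f25c59_an.CantorFreePNoAP
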